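import Mathlib

set_option autoImplicit false

/-! Automorphisms and derivations of a finite-dimensional algebra near the identity. -/

open NormedSpace Filter Topology Set

namespace Pool.Agent.Q169.LAD

variable {𝕜 : Type*} [RCLike 𝕜] {A : Type*} [NormedAddCommGroup A] [NormedSpace 𝕜 A]

/-- automorphism in operator form -/
def IsA (M : A →L[𝕜] A →L[𝕜] A) (g : A →L[𝕜] A) : Prop :=
  IsUnit g ∧ ∀ a b, g (M a b) = M (g a) (g b)

/-- derivation -/
def IsD (M : A →L[𝕜] A →L[𝕜] A) (D : A →L[𝕜] A) : Prop :=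
  ∀ a b, D (M a b) = M (D a) b + M a (D b)

/-- the space of the derivations -/
def der (M : A →L[𝕜] A →L[𝕜] A) : Submodule 𝕜 (A →L[𝕜] A) where
  carrier := {D | IsD M D}
  zero_mem' := by intro a b; simp
  add_mem' := by
    intro D E hD hE a b
    simp only [ContinuousLinearMap.add_apply, map_add, hD a b, hE a b]
    abel
  smul_mem' := by
    intro c D hD a b
    simp only [ContinuousLinearMap.smul_apply, map_smul, hD a b, smul_add]

theorem mem_der {M : A →L[𝕜] A →L[𝕜] A} {D : A →L[𝕜] A} : D ∈ der M ↔ IsD M D := Iff.rfl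

theorem inv_apply {g : A →L[𝕜] A} (hg : IsUnit g) (x : A) : g (Ring.inverse g x) = x := by
  have h := Ring.mul_inverse_cancel g hg
  have := congrArg (fun T : A →L[𝕜] A => T x) h
  exact this

theorem apply_inv {g : A →L[𝕜] A} (hg : IsUnit g) (x : A) : Ring.inverse g (g x) = x := by
  have h := Ring.inverse_mul_cancel g hg
  have := congrArg (fun T : A →L[𝕜] A => T x) h
  exact this

theorem isUnit_inv {g : A →L[𝕜] A} (hg : IsUnit g) : IsUnit (Ring.inverse g) := by
  refine ⟨⟨Ring.inverse g, g, Ring.inverse_mul_cancel g hg, Ring.mul_inverse_cancel g hg⟩, rfl⟩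

theorem IsA.one (M : A →L[𝕜] A →L[𝕜] A) : IsA M 1 := ⟨isUnit_one, fun _ _ => rfl⟩

theorem IsA.mul {M : A →L[𝕜] A →L[𝕜] A} {g h : A →L[𝕜] A} (hg : IsA M g) (hh : IsA M h) :
    IsA M (g * h) := by
  refine ⟨hg.1.mul hh.1, fun a b => ?_⟩
  show g (h (M a b)) = M (g (h a)) (g (h b))
  rw [hh.2, hg.2]

theorem IsA.inv {M : A →L[𝕜] A →L[𝕜] A} {g : A →L[𝕜] A} (hg : IsA M g) :
    IsA M (Ring.inverse g) := by
  refine ⟨isUnit_inv hg.1, fun a b => ?_⟩
  have h1 : g (M (Ring.inverse g a) (Ring.inverse g b)) = M a b := by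
    rw [hg.2, inv_apply hg.1, inv_apply hg.1]
  rw [← h1, apply_inv hg.1]

theorem conj_der {M : A →L[𝕜] A →L[𝕜] A} {g D : A →L[𝕜] A} (hg : IsA M g) (hD : IsD M D) :
    IsD M (Ring.inverse g * D * g) := by
  intro a b
  show Ring.inverse g (D (g (M a b))) =
    M (Ring.inverse g (D (g a))) b + M a (Ring.inverse g (D (g b)))
  rw [hg.2, hD, map_add, hg.inv.2, hg.inv.2, apply_inv hg.1, apply_inv hg.1]

section log

variable [CompleteSpace A]

omit [CompleteSpace A] in
theorem halving {f : A → A → A} (K : ℝ) (h0 : ∀ a b, ‖f a b‖ ≤ K * ‖a‖ * ‖b‖)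
    (h : ∀ K : ℝ, 0 ≤ K → (∀ a b, ‖f a b‖ ≤ K * ‖a‖ * ‖b‖) →
      ∀ a b, ‖f a b‖ ≤ (K / 2) * ‖a‖ * ‖b‖) (a b : A) : f a b = 0 := by
  have h1 : ∀ n : ℕ, ∀ a b, ‖f a b‖ ≤ (max K 0 * (1 / 2) ^ n) * ‖a‖ * ‖b‖ := by
    intro n
    induction n with
    | zero =>
      intro a b
      refine (h0 a b).trans ?_
      have : K ≤ max K 0 * (1 / 2) ^ 0 := by simp
      gcongr
    | succ n ih =>
      intro a b
      refine (h _ (by positivity) ih a b).trans (le_of_eq ?_)
      rw [pow_succ]; ring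
  have h2 : Tendsto (fun n : ℕ => (max K 0 * (1 / 2) ^ n) * ‖a‖ * ‖b‖) atTop
      (𝓝 ((max K 0 * 0) * ‖a‖ * ‖b‖)) :=
    (((tendsto_pow_atTop_nhds_zero_of_lt_one (by norm_num) (by norm_num)).const_mul _).mul_const
      _).mul_const _
  have h3 := ge_of_tendsto' h2 (fun n => h1 n a b)
  simp only [mul_zero, zero_mul] at h3
  exact norm_le_zero_iff.1 h3

theorem log_der (M : A →L[𝕜] A →L[𝕜] A) : ∃ r > (0 : ℝ), ∀ D : A →L[𝕜] A, ‖D‖ < r →
    (∀ a b, exp D (M a b) = M (exp D a) (exp D b)) → IsD M D := by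
  have hc : Tendsto (fun Y : A →L[𝕜] A => exp Y) (𝓝 0) (𝓝 1) := by
    have := (hasFDerivAt_exp_zero (𝕂 := 𝕜) (𝔸 := A →L[𝕜] A)).continuousAt
    have h2 : Tendsto (fun Y : A →L[𝕜] A => exp Y) (𝓝 0) (𝓝 (exp 0)) := this
    rwa [exp_zero] at h2
  obtain ⟨r, hr, hr'⟩ := Metric.tendsto_nhds_nhds.1 hc (1 / 10) (by norm_num)
  refine ⟨r, hr, fun D hD hM => ?_⟩
  have hb : ∀ s : 𝕜, ‖s‖ ≤ 1 → ‖exp (s • D) - 1‖ ≤ 1 / 10 := by
    intro s hs
    have h1 : dist (s • D) 0 < r := by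
      rw [dist_zero_right, norm_smul]
      calc ‖s‖ * ‖D‖ ≤ 1 * ‖D‖ := by gcongr
        _ < r := by rwa [one_mul]
    have := hr' h1
    rw [dist_eq_norm] at this
    exact this.le
  have hb' : ∀ s : 𝕜, ‖s‖ ≤ 1 → ‖exp (s • (-D)) - 1‖ ≤ 1 / 10 := by
    intro s hs
    have h := hb (-s) (by rwa [norm_neg])
    rwa [neg_smul, ← smul_neg] at h
  have hd : ∀ a b, D (M a b) - (M (D a) b + M a (D b)) = 0 := by
    refine halving (3 * ‖M‖ * ‖D‖) ?_ ?_
    · intro a b
      have e1 : ‖D (M a b)‖ ≤ ‖D‖ * (‖M‖ * ‖a‖ * ‖b‖) :=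
        (D.le_opNorm _).trans (by gcongr; exact M.le_opNorm₂ a b)
      have e2 : ‖M (D a) b‖ ≤ ‖M‖ * (‖D‖ * ‖a‖) * ‖b‖ :=
        (M.le_opNorm₂ _ _).trans (by gcongr; exact D.le_opNorm a)
      have e3 : ‖M a (D b)‖ ≤ ‖M‖ * ‖a‖ * (‖D‖ * ‖b‖) :=
        (M.le_opNorm₂ _ _).trans (by gcongr; exact D.le_opNorm b)
      calc ‖D (M a b) - (M (D a) b + M a (D b))‖
          ≤ ‖D (M a b)‖ + (‖M (D a) b‖ + ‖M a (D b)‖) :=
            (norm_sub_le _ _).trans (by gcongr; exact norm_add_le _ _)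
        _ ≤ ‖D‖ * (‖M‖ * ‖a‖ * ‖b‖) + (‖M‖ * (‖D‖ * ‖a‖) * ‖b‖ + ‖M‖ * ‖a‖ * (‖D‖ * ‖b‖)) := by
            gcongr
        _ = 3 * ‖M‖ * ‖D‖ * ‖a‖ * ‖b‖ := by ring
    · intro K hK hKb a b
      set δ : A → A → A := fun a b => D (M a b) - (M (D a) b + M a (D b)) with hδ
      let f : 𝕜 → A := fun s =>
        exp (s • (-D)) (M (exp (s • D) a) (exp (s • D) b)) + s • δ a b
      let f' : 𝕜 → A := fun s =>
        - exp (s • (-D)) (δ (exp (s • D) a) (exp (s • D) b)) + δ a b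
      have hder : ∀ s : 𝕜, HasDerivAt f (f' s) s := by
        intro s
        have h1 := hasDerivAt_exp_smul_const (𝕂 := 𝕜) (-D) s
        have h2 := hasDerivAt_exp_smul_const' (𝕂 := 𝕜) D s
        have h3 : HasDerivAt (fun s : 𝕜 => exp (s • D) a) (D (exp (s • D) a)) s :=
          (h2.clm_apply (hasDerivAt_const s a)).congr_deriv (by simp)
        have h4 : HasDerivAt (fun s : 𝕜 => exp (s • D) b) (D (exp (s • D) b)) s :=
          (h2.clm_apply (hasDerivAt_const s b)).congr_deriv (by simp)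
        have h5 : HasDerivAt (fun s : 𝕜 => M (exp (s • D) a) (exp (s • D) b))
            (M (D (exp (s • D) a)) (exp (s • D) b) + M (exp (s • D) a) (D (exp (s • D) b))) s := by
          have h6 : HasDerivAt (fun s : 𝕜 => M (exp (s • D) a)) (M (D (exp (s • D) a))) s :=
            M.hasFDerivAt.comp_hasDerivAt s h3
          exact h6.clm_apply h4
        have h7 := (h1.clm_apply h5).add ((hasDerivAt_id s).smul_const (δ a b))
        refine h7.congr_deriv ?_
        have e9 : ∀ w, (exp (s • (-D)) * -D) w = - exp (s • (-D)) (D w) := fun w => by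
          show exp (s • (-D)) (-(D w)) = _
          rw [map_neg]
        rw [e9]
        simp only [hδ, f', map_add, map_sub, one_smul]
        abel
      have hlin : ∀ a a' b, δ (a - a') b = δ a b - δ a' b := by
        intro a a' b
        simp only [hδ, map_sub, ContinuousLinearMap.sub_apply]
        abel
      have hlin' : ∀ a b b', δ a (b - b') = δ a b - δ a b' := by
        intro a b b'
        simp only [hδ, map_sub]
        abel
      have hbd : ∀ s ∈ Metric.closedBall (0 : 𝕜) 1, ‖f' s‖ ≤ (K / 2) * ‖a‖ * ‖b‖ := by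
        intro s hs
        rw [mem_closedBall_zero_iff] at hs
        set E := exp (s • D) with hE
        set F := exp (s • (-D)) with hF
        have hE1 : ‖E - 1‖ ≤ 1 / 10 := hb s hs
        have hF1 : ‖F - 1‖ ≤ 1 / 10 := hb' s hs
        have ha1 : ‖E a - a‖ ≤ 1 / 10 * ‖a‖ := ((E - 1).le_opNorm a).trans (by gcongr)
        have hb1 : ‖E b - b‖ ≤ 1 / 10 * ‖b‖ := ((E - 1).le_opNorm b).trans (by gcongr)
        have ha2 : ‖E a‖ ≤ 11 / 10 * ‖a‖ := by
          calc ‖E a‖ = ‖(E a - a) + a‖ := by rw [sub_add_cancel]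
            _ ≤ ‖E a - a‖ + ‖a‖ := norm_add_le _ _
            _ ≤ _ := by linarith
        have hb2 : ‖E b‖ ≤ 11 / 10 * ‖b‖ := by
          calc ‖E b‖ = ‖(E b - b) + b‖ := by rw [sub_add_cancel]
            _ ≤ ‖E b - b‖ + ‖b‖ := norm_add_le _ _
            _ ≤ _ := by linarith
        have e0 : f' s = - ((F - 1) (δ (E a) (E b)) + δ (E a - a) (E b) + δ a (E b - b)) := by
          simp only [f', hlin, hlin', ContinuousLinearMap.sub_apply, ContinuousLinearMap.one_apply]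
          abel
        have e1 : ‖(F - 1) (δ (E a) (E b))‖ ≤ 1 / 10 * (K * (11 / 10 * ‖a‖) * (11 / 10 * ‖b‖)) :=
          ((F - 1).le_opNorm _).trans (by
            gcongr
            exact (hKb _ _).trans (by gcongr))
        have e2 : ‖δ (E a - a) (E b)‖ ≤ K * (1 / 10 * ‖a‖) * (11 / 10 * ‖b‖) :=
          (hKb _ _).trans (by gcongr)
        have e3 : ‖δ a (E b - b)‖ ≤ K * ‖a‖ * (1 / 10 * ‖b‖) :=
          (hKb _ _).trans (by gcongr)
        rw [e0, norm_neg]
        refine (norm_add₃_le).trans ?_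
        have hp : 0 ≤ K * ‖a‖ * ‖b‖ := by positivity
        nlinarith [e1, e2, e3, hp]
      have hmv := Convex.norm_image_sub_le_of_norm_hasDerivWithin_le (f := f) (f' := f')
        (fun s _ => (hder s).hasDerivWithinAt) hbd (convex_closedBall (0 : 𝕜) 1)
        (Metric.mem_closedBall_self zero_le_one)
        (show (1 : 𝕜) ∈ Metric.closedBall 0 1 by simp)
      have hf0 : f 0 = M a b := by simp [f]
      have hf1 : f 1 = M a b + δ a b := by
        simp only [f, one_smul]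
        rw [← hM, ← ContinuousLinearMap.mul_apply]
        let _ : NormedAlgebra ℚ (A →L[𝕜] A) := NormedAlgebra.restrictScalars ℚ 𝕜 _
        rw [← exp_add_of_commute (Commute.neg_left (Commute.refl D)), neg_add_cancel, exp_zero]
        rfl
      rw [hf0, hf1, add_sub_cancel_left, sub_zero, norm_one, mul_one] at hmv
      exact hmv
  intro a b
  exact sub_eq_zero.1 (hd a b)

end log

end Pool.Agent.Q169.LAD
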