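import Pool.Agent.Q169.LAD.Local

set_option autoImplicit false

/-! One-parameter groups of local automorphisms are generated by local derivations. -/

open NormedSpace Filter Topology Set

namespace Pool.Agent.Q169.LAD

variable {𝕜 : Type*} [RCLike 𝕜] {A : Type*} [NormedAddCommGroup A] [NormedSpace 𝕜 A]

theorem W_map_le {M : A →L[𝕜] A →L[𝕜] A} {g : A →L[𝕜] A} (hg : IsA M g) (x : A) :
    W M (g x) ≤ (W M x).map (g : A →ₗ[𝕜] A) := by
  rintro _ ⟨D, hD, rfl⟩
  refine ⟨Ring.inverse g (D (g x)), ⟨_, conj_der hg hD, rfl⟩, ?_⟩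
  exact inv_apply hg.1 _

theorem finrank_W_le [FiniteDimensional 𝕜 A] {M : A →L[𝕜] A →L[𝕜] A} {g : A →L[𝕜] A}
    (hg : IsA M g) (x : A) : Module.finrank 𝕜 (W M (g x)) ≤ Module.finrank 𝕜 (W M x) :=
  (Submodule.finrank_mono (W_map_le hg x)).trans (Submodule.finrank_map_le _ _)

/-- If `X y ∈ W y` for points `y` arbitrarily close to `x` where `W y` has at most the dimension of
`W x`, then `X x ∈ W x`. -/
theorem limit_mem [FiniteDimensional 𝕜 A] (M : A →L[𝕜] A →L[𝕜] A) (X : A →L[𝕜] A) (x : A)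
    (y : ℕ → A) (hy : Tendsto y atTop (𝓝 x)) (hX : ∀ n, X (y n) ∈ W M (y n))
    (hr : ∀ n, Module.finrank 𝕜 (W M (y n)) ≤ Module.finrank 𝕜 (W M x)) : X x ∈ W M x := by
  by_contra hnot
  set r := Module.finrank 𝕜 (W M x) with hrdef
  let b : Module.Basis (Fin r) 𝕜 (W M x) := Module.finBasis 𝕜 (W M x)
  have hb : ∀ i, ∃ D, IsD M D ∧ D x = (b i : A) := fun i => mem_W.1 (b i).2
  choose D hD hDx using hb
  have hspan : Submodule.span 𝕜 (range fun i => D i x) = W M x := by
    have h1 : (fun i => D i x) = (W M x).subtype ∘ b := by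
      funext i
      rw [hDx]
      rfl
    rw [h1, range_comp, Submodule.span_image, b.span_eq, Submodule.map_top,
      Submodule.range_subtype]
  have hli : LinearIndependent 𝕜 fun i => D i x := by
    have h1 : (fun i => D i x) = (W M x).subtype ∘ b := by
      funext i
      rw [hDx]
      rfl
    rw [h1]
    exact b.linearIndependent.map' _ (Submodule.ker_subtype _)
  have hli' : LinearIndependent 𝕜 (Fin.cons (X x) (fun i => D i x) : Fin (r + 1) → A) := by
    rw [linearIndependent_finCons, hspan]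
    exact ⟨hli, hnot⟩
  have hopen := isOpen_setOf_linearIndependent (𝕜 := 𝕜) (E := A) (ι := Fin (r + 1))
  have hcont : Tendsto (fun n => (Fin.cons (X (y n)) (fun i => D i (y n)) : Fin (r + 1) → A)) atTop
      (𝓝 (Fin.cons (X x) (fun i => D i x))) := by
    rw [tendsto_pi_nhds]
    intro i
    refine Fin.cases ?_ (fun i => ?_) i
    · simp only [Fin.cons_zero]
      exact (X.continuous.tendsto x).comp hy
    · simp only [Fin.cons_succ]
      exact ((D i).continuous.tendsto x).comp hy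
  obtain ⟨n, hn⟩ := (hcont.eventually (hopen.mem_nhds hli')).exists
  have hn' : LinearIndependent 𝕜 (Fin.cons (X (y n)) (fun i => D i (y n)) : Fin (r + 1) → A) := hn
  have h1 := finrank_span_eq_card hn'
  rw [Fintype.card_fin] at h1
  have h2 : Submodule.span 𝕜 (range (Fin.cons (X (y n)) (fun i => D i (y n)) :
      Fin (r + 1) → A)) ≤ W M (y n) := by
    rw [Submodule.span_le]
    rintro _ ⟨i, rfl⟩
    refine Fin.cases ?_ (fun i => ?_) i
    · simp only [Fin.cons_zero]
      exact hX n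
    · simp only [Fin.cons_succ]
      exact ⟨D i, hD i, rfl⟩
  have h3 := Submodule.finrank_mono h2
  have h4 := hr n
  omega

/-- compact pieces of the automorphism group -/
theorem compact_piece [FiniteDimensional 𝕜 A] (M : A →L[𝕜] A →L[𝕜] A) (j : ℕ) :
    ∃ K : Set (A →L[𝕜] A), IsCompact K ∧ (∀ g ∈ K, IsA M g) ∧
      ∀ g, IsA M g → ‖g‖ ≤ j → ‖Ring.inverse g‖ ≤ j → g ∈ K := by
  have : ProperSpace (A →L[𝕜] A) := FiniteDimensional.proper_rclike 𝕜 _
  let P : Set ((A →L[𝕜] A) × (A →L[𝕜] A)) :=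
    {p | p.1 * p.2 = 1 ∧ p.2 * p.1 = 1 ∧ (∀ a b, p.1 (M a b) = M (p.1 a) (p.1 b)) ∧
      ‖p.1‖ ≤ j ∧ ‖p.2‖ ≤ j}
  have hc1 : ∀ a : A, Continuous fun p : (A →L[𝕜] A) × (A →L[𝕜] A) => p.1 a := fun a =>
    (ContinuousLinearMap.apply 𝕜 A a).continuous.comp continuous_fst
  have hPc : IsClosed P := by
    refine (isClosed_eq (continuous_fst.mul continuous_snd) continuous_const).inter
      ((isClosed_eq (continuous_snd.mul continuous_fst) continuous_const).inter (IsClosed.inter ?_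
        ((isClosed_le continuous_fst.norm continuous_const).inter
          (isClosed_le continuous_snd.norm continuous_const))))
    have : {p : (A →L[𝕜] A) × (A →L[𝕜] A) | ∀ a b, p.1 (M a b) = M (p.1 a) (p.1 b)} =
        ⋂ a, ⋂ b, {p | p.1 (M a b) = M (p.1 a) (p.1 b)} := by
      ext p
      simp
    rw [show (fun p : (A →L[𝕜] A) × (A →L[𝕜] A) => ∀ a b, p.1 (M a b) = M (p.1 a) (p.1 b)) =
      {p : (A →L[𝕜] A) × (A →L[𝕜] A) | ∀ a b, p.1 (M a b) = M (p.1 a) (p.1 b)} from rfl, this]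
    refine isClosed_iInter fun a => isClosed_iInter fun b => isClosed_eq (hc1 _) ?_
    exact (M.continuous.comp (hc1 a)).clm_apply (hc1 b)
  have hPb : Bornology.IsBounded P := by
    refine (Metric.isBounded_closedBall (x := (0 : (A →L[𝕜] A) × (A →L[𝕜] A))) (r := j)).subset ?_
    rintro p ⟨-, -, -, h1, h2⟩
    rw [mem_closedBall_zero_iff, Prod.norm_def]
    exact max_le h1 h2
  have hPK : IsCompact P := Metric.isCompact_of_isClosed_isBounded hPc hPb
  refine ⟨Prod.fst '' P, hPK.image continuous_fst, ?_, ?_⟩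
  · rintro _ ⟨p, ⟨h1, h2, h3, -⟩, rfl⟩
    exact ⟨⟨⟨p.1, p.2, h1, h2⟩, rfl⟩, h3⟩
  · intro g hg h1 h2
    exact ⟨(g, Ring.inverse g), ⟨Ring.mul_inverse_cancel g hg.1, Ring.inverse_mul_cancel g hg.1,
      hg.2, h1, h2⟩, rfl⟩

theorem exp_flow_add (X : A →L[𝕜] A) [CompleteSpace A] (s t : ℝ) (x : A) :
    exp ((s : 𝕜) • X) (exp ((t : 𝕜) • X) x) = exp (((s + t : ℝ) : 𝕜) • X) x := by
  let _ : NormedAlgebra ℚ (A →L[𝕜] A) := NormedAlgebra.restrictScalars ℚ 𝕜 _
  rw [RCLike.ofReal_add, add_smul, exp_add_of_commute ((Commute.refl X).smul_left _ |>.smul_right _)]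
  rfl

theorem continuous_flow (X : A →L[𝕜] A) [CompleteSpace A] (x : A) :
    Continuous fun t : ℝ => exp ((t : 𝕜) • X) x := by
  have h2 : Continuous (fun c : 𝕜 => exp (c • X) x) := by
    rw [continuous_iff_continuousAt]
    intro c
    exact ((hasDerivAt_exp_smul_const (𝕂 := 𝕜) X c).clm_apply
      (hasDerivAt_const c x)).continuousAt
  exact h2.comp RCLike.continuous_ofReal

theorem converse [FiniteDimensional 𝕜 A] (M : A →L[𝕜] A →L[𝕜] A) (X : A →L[𝕜] A)
    (hX : ∀ (t : ℝ) (x : A), ∃ g, IsA M g ∧ exp ((t : 𝕜) • X) x = g x) (x : A) :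
    X x ∈ W M x := by
  have : CompleteSpace A := FiniteDimensional.complete 𝕜 A
  choose K hK hKA hKm using compact_piece M
  let F : ℕ → Set ℝ := fun j => {t | ∃ k ∈ K j, exp ((t : 𝕜) • X) x = k x}
  have hF : ∀ j, IsClosed (F j) := by
    intro j
    have h1 : IsCompact ((fun k : A →L[𝕜] A => k x) '' K j) :=
      (hK j).image (ContinuousLinearMap.apply 𝕜 A x).continuous
    have h2 : F j = (fun t : ℝ => exp ((t : 𝕜) • X) x) ⁻¹' ((fun k : A →L[𝕜] A => k x) '' K j) := by
      ext t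
      constructor
      · rintro ⟨k, hk, h⟩
        exact ⟨k, hk, h.symm⟩
      · rintro ⟨k, hk, h⟩
        exact ⟨k, hk, h.symm⟩
    rw [h2]
    exact h1.isClosed.preimage (continuous_flow X x)
  have hU : ⋃ j, F j = univ := by
    rw [eq_univ_iff_forall]
    intro t
    obtain ⟨g, hg, h⟩ := hX t x
    obtain ⟨j, hj⟩ := exists_nat_ge (max ‖g‖ ‖Ring.inverse g‖)
    exact mem_iUnion.2 ⟨j, g, hKm j g hg ((le_max_left _ _).trans hj) ((le_max_right _ _).trans hj),
      h⟩
  have hdense := dense_iUnion_interior_of_closed hF hU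
  have hpt : ∀ n : ℕ, ∃ t : ℝ, 0 < t ∧ t < 1 / (n + 1) ∧
      X (exp ((t : 𝕜) • X) x) ∈ W M (exp ((t : 𝕜) • X) x) := by
    intro n
    have hne : (Ioo (0 : ℝ) (1 / (n + 1))).Nonempty := nonempty_Ioo.2 (by positivity)
    obtain ⟨t, ht1, ht2⟩ := hdense.inter_open_nonempty _ isOpen_Ioo hne
    obtain ⟨j, hj⟩ := mem_iUnion.1 ht2
    obtain ⟨ε, hε, hball⟩ := Metric.isOpen_iff.1 isOpen_interior t hj
    refine ⟨t, ht1.1, ht1.2, ?_⟩
    obtain ⟨k₀, hk₀, h₀⟩ := interior_subset hj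
    have hA₀ := hKA j k₀ hk₀
    refine local_step M X _ ((fun k => k * Ring.inverse k₀) '' K j)
      ((hK j).image (continuous_id.mul continuous_const)) ?_ ε hε ?_
    · rintro _ ⟨k, hk, rfl⟩
      exact (hKA j k hk).mul hA₀.inv
    · intro s hs
      have h1 : s + t ∈ F j := by
        refine interior_subset (hball ?_)
        rw [Metric.mem_ball, Real.dist_eq]
        simpa using hs
      obtain ⟨k, hk, h⟩ := h1
      refine ⟨k * Ring.inverse k₀, ⟨k, hk, rfl⟩, ?_⟩
      rw [exp_flow_add, h]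
      show k x = k (Ring.inverse k₀ (exp ((t : 𝕜) • X) x))
      rw [h₀, apply_inv hA₀.1]
  choose t ht0 ht1 ht2 using hpt
  have ht : Tendsto t atTop (𝓝 0) :=
    squeeze_zero (fun n => (ht0 n).le) (fun n => (ht1 n).le) tendsto_one_div_add_atTop_nhds_zero_nat
  refine limit_mem M X x (fun n => exp ((t n : 𝕜) • X) x) ?_ ht2 ?_
  · have h1 := ((continuous_flow X x).tendsto 0).comp ht
    simpa [Function.comp_def] using h1
  · intro n
    obtain ⟨g, hg, h⟩ := hX (t n) x
    show Module.finrank 𝕜 (W M (exp ((t n : 𝕜) • X) x)) ≤ _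
    rw [h]
    exact finrank_W_le hg x

end Pool.Agent.Q169.LAD
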