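import Pool.Agent.Q169.LAD.Basic

set_option autoImplicit false

/-! A curve in the orbit of a compact set of automorphisms has its velocity in the derivations. -/

open NormedSpace Filter Topology Set

namespace Pool.Agent.Q169.LAD

variable {𝕜 : Type*} [RCLike 𝕜] {A : Type*} [NormedAddCommGroup A] [NormedSpace 𝕜 A]

/-- the values of the derivations at a point -/
noncomputable def W (M : A →L[𝕜] A →L[𝕜] A) (y : A) : Submodule 𝕜 A :=
  (der M).map (ContinuousLinearMap.apply 𝕜 A y : (A →L[𝕜] A) →L[𝕜] A).toLinearMap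

theorem mem_W {M : A →L[𝕜] A →L[𝕜] A} {y v : A} : v ∈ W M y ↔ ∃ D, IsD M D ∧ D y = v := Iff.rfl

theorem exp_near [CompleteSpace A] {η : ℝ} (hη : 0 < η) : ∃ r > (0 : ℝ), ∀ D : A →L[𝕜] A, ‖D‖ < r →
    ∀ v, ‖exp D v - v - D v‖ ≤ η * ‖D v‖ := by
  have hc : Tendsto (fun Y : A →L[𝕜] A => exp Y) (𝓝 0) (𝓝 1) := by
    have := (hasFDerivAt_exp_zero (𝕂 := 𝕜) (𝔸 := A →L[𝕜] A)).continuousAt
    have h2 : Tendsto (fun Y : A →L[𝕜] A => exp Y) (𝓝 0) (𝓝 (exp 0)) := this
    rwa [exp_zero] at h2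
  obtain ⟨r, hr, hr'⟩ := Metric.tendsto_nhds_nhds.1 hc η hη
  refine ⟨r, hr, fun D hD v => ?_⟩
  have hb : ∀ s : 𝕜, ‖s‖ ≤ 1 → ‖exp (s • D) - 1‖ ≤ η := by
    intro s hs
    have h1 : dist (s • D) 0 < r := by
      rw [dist_zero_right, norm_smul]
      calc ‖s‖ * ‖D‖ ≤ 1 * ‖D‖ := by gcongr
        _ < r := by rwa [one_mul]
    have := hr' h1
    rw [dist_eq_norm] at this
    exact this.le
  let f : 𝕜 → A := fun s => exp (s • D) v - s • D v
  let f' : 𝕜 → A := fun s => exp (s • D) (D v) - D v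
  have hder : ∀ s : 𝕜, HasDerivAt f (f' s) s := by
    intro s
    have h2 := hasDerivAt_exp_smul_const (𝕂 := 𝕜) D s
    have h3 := (h2.clm_apply (hasDerivAt_const s v)).sub ((hasDerivAt_id s).smul_const (D v))
    refine h3.congr_deriv ?_
    simp only [map_zero, add_zero, one_smul]
    rfl
  have hbd : ∀ s ∈ Metric.closedBall (0 : 𝕜) 1, ‖f' s‖ ≤ η * ‖D v‖ := by
    intro s hs
    rw [mem_closedBall_zero_iff] at hs
    exact ((exp (s • D) - 1).le_opNorm (D v)).trans (by gcongr; exact hb s hs)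
  have hmv := Convex.norm_image_sub_le_of_norm_hasDerivWithin_le (f := f) (f' := f')
    (fun s _ => (hder s).hasDerivWithinAt) hbd (convex_closedBall (0 : 𝕜) 1)
    (Metric.mem_closedBall_self zero_le_one)
    (show (1 : 𝕜) ∈ Metric.closedBall 0 1 by simp)
  have hf0 : f 0 = v := by simp [f]
  have hf1 : f 1 = exp D v - D v := by simp [f]
  rw [hf0, hf1, sub_zero, norm_one, mul_one] at hmv
  have : exp D v - v - D v = exp D v - D v - v := by abel
  rwa [this]

theorem continuous_inverse_at {g : A →L[𝕜] A} [CompleteSpace A] (hg : IsUnit g) :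
    ContinuousAt Ring.inverse g := by
  obtain ⟨u, rfl⟩ := hg
  exact NormedRing.inverse_continuousAt u

theorem local_step [FiniteDimensional 𝕜 A] (M : A →L[𝕜] A →L[𝕜] A) (X : A →L[𝕜] A) (y : A)
    (K : Set (A →L[𝕜] A)) (hK : IsCompact K) (hKA : ∀ g ∈ K, IsA M g) (ε : ℝ) (hε : 0 < ε)
    (h : ∀ s : ℝ, |s| < ε → ∃ k ∈ K, exp ((s : 𝕜) • X) y = k y) : X y ∈ W M y := by
  have : CompleteSpace A := FiniteDimensional.complete 𝕜 A
  have hfin : FiniteDimensional 𝕜 (A →L[𝕜] A) := inferInstance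
  have hfinW : FiniteDimensional 𝕜 (W M y) := inferInstance
  have hclosed : IsClosed (W M y : Set A) := (W M y).closed_of_finiteDimensional
  let s : ℕ → ℝ := fun n => ε / (n + 2)
  have hs0 : ∀ n, 0 < s n := fun n => by positivity
  have hsε : ∀ n, |s n| < ε := by
    intro n
    rw [abs_of_pos (hs0 n), div_lt_iff₀ (by positivity)]
    nlinarith [n.cast_nonneg (α := ℝ)]
  have hst : Tendsto s atTop (𝓝 0) := by
    have h1 : Tendsto (fun n : ℕ => (n : ℝ) + 2) atTop atTop :=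
      tendsto_atTop_add_const_right _ _ tendsto_natCast_atTop_atTop
    exact h1.const_div_atTop ε
  choose k hkK hk using fun n => h (s n) (hsε n)
  obtain ⟨k₀, hk₀, φ, hφ, hlim⟩ := hK.tendsto_subseq hkK
  -- the flow
  have hflow : Tendsto (fun n => exp ((s (φ n) : 𝕜) • X) y) atTop (𝓝 y) := by
    have h1 : Tendsto (fun n => ((s (φ n) : ℝ) : 𝕜)) atTop (𝓝 0) := by
      have := (RCLike.continuous_ofReal (K := 𝕜)).tendsto 0
      rw [RCLike.ofReal_zero] at this
      exact this.comp (hst.comp hφ.tendsto_atTop)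
    have h2 : ContinuousAt (fun c : 𝕜 => exp (c • X) y) 0 :=
      ((hasDerivAt_exp_smul_const (𝕂 := 𝕜) X (0 : 𝕜)).clm_apply
        (hasDerivAt_const (0 : 𝕜) y)).continuousAt
    have h3 := h2.tendsto.comp h1
    simpa [Function.comp_def] using h3
  have hk₀y : k₀ y = y := by
    have h1 : Tendsto (fun n => k (φ n) y) atTop (𝓝 (k₀ y)) :=
      ((ContinuousLinearMap.apply 𝕜 A y).continuous.tendsto k₀).comp hlim
    have h2 : Tendsto (fun n => k (φ n) y) atTop (𝓝 y) :=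
      hflow.congr fun n => hk (φ n)
    exact tendsto_nhds_unique h1 h2
  have hA₀ := hKA k₀ hk₀
  have hinv : Ring.inverse k₀ y = y := by
    conv_lhs => rw [← hk₀y]
    exact apply_inv hA₀.1 y
  let g : ℕ → A →L[𝕜] A := fun n => k (φ n) * Ring.inverse k₀
  have hgA : ∀ n, IsA M (g n) := fun n => (hKA _ (hkK _)).mul hA₀.inv
  have hgy : ∀ n, g n y = exp ((s (φ n) : 𝕜) • X) y := by
    intro n
    show k (φ n) (Ring.inverse k₀ y) = _
    rw [hinv, hk]
  have hg1 : Tendsto g atTop (𝓝 1) := by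
    have h1 : Tendsto g atTop (𝓝 (k₀ * Ring.inverse k₀)) := hlim.mul_const _
    rwa [Ring.mul_inverse_cancel _ hA₀.1] at h1
  -- logarithms
  have hexp : HasStrictFDerivAt (exp : (A →L[𝕜] A) → (A →L[𝕜] A))
      ((ContinuousLinearEquiv.refl 𝕜 (A →L[𝕜] A) :
        (A →L[𝕜] A) ≃L[𝕜] (A →L[𝕜] A)) : (A →L[𝕜] A) →L[𝕜] (A →L[𝕜] A)) 0 :=
    hasStrictFDerivAt_exp_zero (𝕂 := 𝕜)
  let L := hexp.localInverse exp _ 0
  have hL1 : ∀ᶠ z in 𝓝 (1 : A →L[𝕜] A), exp (L z) = z := by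
    have := hexp.eventually_right_inverse
    rwa [exp_zero] at this
  have hL2 : Tendsto L (𝓝 1) (𝓝 0) := by
    have := hexp.localInverse_tendsto
    rwa [exp_zero] at this
  have hD0 : Tendsto (fun n => L (g n)) atTop (𝓝 0) := hL2.comp hg1
  have hDexp : ∀ᶠ n in atTop, exp (L (g n)) = g n := hg1.eventually hL1
  obtain ⟨r₁, hr₁, hlog⟩ := log_der M
  have hsmall : ∀ r > (0 : ℝ), ∀ᶠ n in atTop, ‖L (g n)‖ < r := by
    intro r hr
    have := (Metric.tendsto_nhds.1 hD0) r hr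
    simpa [dist_zero_right] using this
  have hDder : ∀ᶠ n in atTop, IsD M (L (g n)) := by
    filter_upwards [hDexp, hsmall r₁ hr₁] with n h1 h2
    refine hlog _ h2 fun a b => ?_
    rw [h1]
    exact (hgA n).2 a b
  -- slopes
  let q : ℕ → A := fun n => ((s (φ n) : ℝ) : 𝕜)⁻¹ • (g n y - y)
  have hq : Tendsto q atTop (𝓝 (X y)) := by
    have h2 : HasDerivAt (fun c : 𝕜 => exp (c • X) y) (X y) 0 :=
      ((hasDerivAt_exp_smul_const (𝕂 := 𝕜) X (0 : 𝕜)).clm_apply
        (hasDerivAt_const (0 : 𝕜) y)).congr_deriv (by simp)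
    have h3 := hasDerivAt_iff_tendsto_slope.1 h2
    have h1 : Tendsto (fun n => ((s (φ n) : ℝ) : 𝕜)) atTop (𝓝[≠] 0) := by
      rw [tendsto_nhdsWithin_iff]
      constructor
      · have := (RCLike.continuous_ofReal (K := 𝕜)).tendsto 0
        rw [RCLike.ofReal_zero] at this
        exact this.comp (hst.comp hφ.tendsto_atTop)
      · refine Eventually.of_forall fun n => ?_
        simp only [mem_compl_iff, mem_singleton_iff, RCLike.ofReal_eq_zero]
        exact (hs0 _).ne'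
    refine (h3.comp h1).congr fun n => ?_
    simp only [Function.comp, slope, vsub_eq_sub, sub_zero, zero_smul, exp_zero, q, hgy]
    rfl
  have hmem : X y ∈ closure (W M y : Set A) := by
    rw [Metric.mem_closure_iff]
    intro δ hδ
    have hpos : 0 < ‖X y‖ + 1 := by positivity
    set η : ℝ := min (1 / 2) (δ / (4 * (‖X y‖ + 1))) with hη
    have hη0 : 0 < η := by positivity
    obtain ⟨r₂, hr₂, hnear⟩ := exp_near (𝕜 := 𝕜) (A := A) hη0
    have hqn : ∀ᶠ n in atTop, dist (q n) (X y) < min 1 (δ / 2) :=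
      (Metric.tendsto_nhds.1 hq) _ (by positivity)
    obtain ⟨n, h1, h2, h3, h4⟩ :=
      (hDexp.and (hDder.and ((hsmall r₂ hr₂).and hqn))).exists
    refine ⟨((s (φ n) : ℝ) : 𝕜)⁻¹ • L (g n) y, (W M y).smul_mem _ ⟨L (g n), h2, rfl⟩, ?_⟩
    set p := ((s (φ n) : ℝ) : 𝕜)⁻¹ • L (g n) y with hp
    have e1 : ‖q n - p‖ ≤ η * ‖p‖ := by
      have h5 := hnear _ h3 y
      rw [h1] at h5
      have h6 : q n - p = ((s (φ n) : ℝ) : 𝕜)⁻¹ • (g n y - y - L (g n) y) := by
        simp only [q, hp, smul_sub]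
      rw [h6, norm_smul, hp, norm_smul]
      calc ‖((s (φ n) : ℝ) : 𝕜)⁻¹‖ * ‖g n y - y - L (g n) y‖
          ≤ ‖((s (φ n) : ℝ) : 𝕜)⁻¹‖ * (η * ‖L (g n) y‖) := by gcongr
        _ = _ := by ring
    have hη1 : η ≤ 1 / 2 := min_le_left _ _
    have hη2 : η ≤ δ / (4 * (‖X y‖ + 1)) := min_le_right _ _
    have e2 : ‖p‖ ≤ 2 * ‖q n‖ := by
      have : ‖p‖ ≤ ‖q n‖ + ‖q n - p‖ := by
        have h7 : p = q n - (q n - p) := by abel
        calc ‖p‖ = ‖q n - (q n - p)‖ := by rw [← h7]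
          _ ≤ _ := norm_sub_le _ _
      nlinarith [norm_nonneg p]
    have e3 : ‖q n‖ ≤ ‖X y‖ + 1 := by
      have h8 : dist (q n) (X y) < 1 := h4.trans_le (min_le_left _ _)
      rw [dist_eq_norm] at h8
      calc ‖q n‖ = ‖(q n - X y) + X y‖ := by rw [sub_add_cancel]
        _ ≤ ‖q n - X y‖ + ‖X y‖ := norm_add_le _ _
        _ ≤ _ := by linarith
    have e4 : ‖q n - p‖ ≤ δ / 2 := by
      calc ‖q n - p‖ ≤ η * ‖p‖ := e1
        _ ≤ δ / (4 * (‖X y‖ + 1)) * (2 * (‖X y‖ + 1)) := by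
            gcongr
            linarith
        _ = δ / 2 := by field_simp; norm_num
    have e5 : dist (q n) (X y) < δ / 2 := h4.trans_le (min_le_right _ _)
    calc dist (X y) p ≤ dist (X y) (q n) + dist (q n) p := dist_triangle _ _ _
      _ < δ / 2 + δ / 2 := by
          rw [dist_comm (X y), dist_eq_norm (q n) p]
          exact add_lt_add_of_lt_of_le e5 e4
      _ = δ := by ring
  rwa [hclosed.closure_eq] at hmem

end Pool.Agent.Q169.LAD
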