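import Pool.Agent.Q169.LAD.Conv

set_option autoImplicit false

/-! Local derivations generate one-parameter groups of local automorphisms. -/

open NormedSpace Filter Topology Set

namespace Pool.Agent.Q169.LAD

variable {𝕜 : Type*} [RCLike 𝕜] {A : Type*} [NormedAddCommGroup A] [NormedSpace 𝕜 A]

theorem halving' {ι : Type*} {f : ι → A → A → A} (K : ℝ)
    (h0 : ∀ i a b, ‖f i a b‖ ≤ K * ‖a‖ * ‖b‖)
    (h : ∀ K : ℝ, 0 ≤ K → (∀ i a b, ‖f i a b‖ ≤ K * ‖a‖ * ‖b‖) →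
      ∀ i a b, ‖f i a b‖ ≤ (K / 2) * ‖a‖ * ‖b‖) (i : ι) (a b : A) : f i a b = 0 := by
  have h1 : ∀ n : ℕ, ∀ i a b, ‖f i a b‖ ≤ (max K 0 * (1 / 2) ^ n) * ‖a‖ * ‖b‖ := by
    intro n
    induction n with
    | zero =>
      intro i a b
      refine (h0 i a b).trans ?_
      have : K ≤ max K 0 * (1 / 2) ^ 0 := by simp
      gcongr
    | succ n ih =>
      intro i a b
      refine (h _ (by positivity) ih i a b).trans (le_of_eq ?_)
      rw [pow_succ]; ring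
  have h2 : Tendsto (fun n : ℕ => (max K 0 * (1 / 2) ^ n) * ‖a‖ * ‖b‖) atTop
      (𝓝 ((max K 0 * 0) * ‖a‖ * ‖b‖)) :=
    (((tendsto_pow_atTop_nhds_zero_of_lt_one (by norm_num) (by norm_num)).const_mul _).mul_const
      _).mul_const _
  have h3 := ge_of_tendsto' h2 (fun n => h1 n i a b)
  simp only [mul_zero, zero_mul] at h3
  exact norm_le_zero_iff.1 h3

theorem exists_section [FiniteDimensional 𝕜 A] (M : A →L[𝕜] A →L[𝕜] A) (x : A) :
    ∃ σ : A →L[𝕜] (A →L[𝕜] A), (∀ v, IsD M (σ v)) ∧ ∀ v ∈ W M x, σ v x = v := by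
  let ev : der M →ₗ[𝕜] A :=
    (ContinuousLinearMap.apply 𝕜 A x : (A →L[𝕜] A) →L[𝕜] A).toLinearMap.comp (der M).subtype
  obtain ⟨s₀, hs₀⟩ := LinearMap.exists_rightInverse_of_surjective ev.rangeRestrict
    (LinearMap.range_rangeRestrict ev)
  obtain ⟨s, hs⟩ := LinearMap.exists_extend s₀
  refine ⟨LinearMap.toContinuousLinearMap ((der M).subtype.comp s), fun v => (s v).2, ?_⟩
  rintro v ⟨D, hD, hDv⟩
  have hv : v ∈ LinearMap.range ev := ⟨⟨D, hD⟩, hDv⟩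
  have h1 : s v = s₀ ⟨v, hv⟩ := by
    have := congrArg (fun f : (LinearMap.range ev) →ₗ[𝕜] der M => f ⟨v, hv⟩) hs
    exact this
  have h2 : ev.rangeRestrict (s₀ ⟨v, hv⟩) = ⟨v, hv⟩ := by
    have := congrArg (fun f : (LinearMap.range ev) →ₗ[𝕜] (LinearMap.range ev) => f ⟨v, hv⟩) hs₀
    exact this
  have h3 : ev (s₀ ⟨v, hv⟩) = v := congrArg Subtype.val h2
  show ((s v : der M) : A →L[𝕜] A) x = v
  rw [h1]
  exact h3

theorem real_flow [NormedSpace ℝ A] [IsScalarTower ℝ 𝕜 A] [CompleteSpace A] (X : A →L[𝕜] A)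
    (x : A) (t : ℝ) :
    HasDerivAt (fun t : ℝ => exp ((t : 𝕜) • X) x) (X (exp ((t : 𝕜) • X) x)) t := by
  have h1 : HasDerivAt (fun c : 𝕜 => exp (c • X) x) (X (exp ((t : 𝕜) • X) x)) (t : 𝕜) :=
    ((hasDerivAt_exp_smul_const' (𝕂 := 𝕜) X (t : 𝕜)).clm_apply
      (hasDerivAt_const (t : 𝕜) x)).congr_deriv (by simp)
  have h2 : HasDerivAt (fun t : ℝ => (t : 𝕜)) (1 : 𝕜) t := by
    have := (RCLike.ofRealCLM (K := 𝕜)).hasDerivAt (x := t)
    simpa using this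
  have h3 := HasDerivAt.scomp t h1 h2
  rwa [one_smul] at h3

theorem ode_step [NormedSpace ℝ A] [IsScalarTower ℝ 𝕜 A] [FiniteDimensional 𝕜 A]
    (M : A →L[𝕜] A →L[𝕜] A) (X : A →L[𝕜] A) (hX : ∀ y, X y ∈ W M y) (x : A) :
    ∃ ε > (0 : ℝ), ∀ t : ℝ, |t| < ε → ∃ g, IsA M g ∧ exp ((t : 𝕜) • X) x = g x := by
  have : CompleteSpace A := FiniteDimensional.complete 𝕜 A
  obtain ⟨σ, hσ, hσx⟩ := exists_section M x
  let G : (A →L[𝕜] A) → (A →L[𝕜] A) := fun g => σ (Ring.inverse g (X (g x)))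
  let F : (A →L[𝕜] A) → (A →L[𝕜] A) := fun g => g * G g
  have hG : ContDiffAt 𝕜 1 G 1 := by
    have h1 : ContDiffAt 𝕜 1 (fun g : A →L[𝕜] A => X (g x)) 1 :=
      (X.contDiff.comp (ContinuousLinearMap.apply 𝕜 A x).contDiff).contDiffAt
    have h2 : ContDiffAt 𝕜 1 (Ring.inverse : (A →L[𝕜] A) → (A →L[𝕜] A)) 1 :=
      contDiffAt_ringInverse 𝕜 (1 : (A →L[𝕜] A)ˣ)
    exact σ.contDiff.contDiffAt.comp 1 (h2.clm_apply h1)
  have hF : ContDiffAt 𝕜 1 F 1 := contDiffAt_id.mul hG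
  have hFr : ContDiffAt ℝ 1 F 1 := hF.restrict_scalars ℝ
  obtain ⟨α, hα0, ε₀, hε₀, hα⟩ :=
    hFr.exists_forall_mem_closedBall_exists_eq_forall_mem_Ioo_hasDerivAt₀ 0
  rw [zero_sub, zero_add] at hα
  have hαc : ContinuousAt α 0 := (hα 0 ⟨by linarith, hε₀⟩).continuousAt
  have hu : ∀ᶠ t in 𝓝 (0 : ℝ), IsUnit (α t) := by
    have h1 : ∀ᶠ g in 𝓝 (α 0), IsUnit g := by
      rw [hα0]
      exact Units.isOpen.mem_nhds isUnit_one
    exact hαc.eventually h1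
  have hGb : ∀ᶠ t in 𝓝 (0 : ℝ), ‖G (α t)‖ < ‖G 1‖ + 1 := by
    have h0 : ContinuousAt (G ∘ α) 0 :=
      ContinuousAt.comp (g := G) (by rw [hα0]; exact hG.continuousAt) hαc
    have h1 : ContinuousAt (fun t => ‖G (α t)‖) 0 := h0.norm
    have h2 := h1.eventually (gt_mem_nhds (show ‖G (α 0)‖ < ‖G 1‖ + 1 by rw [hα0]; linarith))
    exact h2
  have hαb : ∀ᶠ t in 𝓝 (0 : ℝ), ‖α t‖ < ‖(1 : A →L[𝕜] A)‖ + 1 := by
    have h2 := hαc.norm.eventually (gt_mem_nhds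
      (show ‖α 0‖ < ‖(1 : A →L[𝕜] A)‖ + 1 by rw [hα0]; linarith))
    exact h2
  obtain ⟨ε₁, hε₁, hall⟩ := Metric.eventually_nhds_iff.1 (hu.and (hGb.and hαb))
  set C : ℝ := ‖G 1‖ + 1 with hC
  have hC0 : 0 < C := by positivity
  set R : ℝ := ‖(1 : A →L[𝕜] A)‖ + 1 with hR
  have hR0 : 0 < R := by positivity
  set η : ℝ := min (min ε₀ ε₁) (1 / (4 * C)) with hη
  have hη0 : 0 < η := by positivity
  have hηε₀ : η ≤ ε₀ := (min_le_left _ _).trans (min_le_left _ _)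
  have hηε₁ : η ≤ ε₁ := (min_le_left _ _).trans (min_le_right _ _)
  have hηC : η * (4 * C) ≤ 1 := by
    have : η ≤ 1 / (4 * C) := min_le_right _ _
    rwa [le_div_iff₀ (by positivity)] at this
  have hder : ∀ t ∈ Ioo (-η) η, HasDerivAt α (F (α t)) t := fun t ht =>
    hα t ⟨by linarith [ht.1], by linarith [ht.2]⟩
  have hnear : ∀ t ∈ Ioo (-η) η, IsUnit (α t) ∧ ‖G (α t)‖ < C ∧ ‖α t‖ < R := by
    intro t ht
    refine hall ?_
    rw [Real.dist_eq, sub_zero]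
    exact (abs_lt.2 ht).trans_le hηε₁
  have hev : ∀ (a : A), ∀ t ∈ Ioo (-η) η, HasDerivAt (fun t => α t a) (α t (G (α t) a)) t := by
    intro a t ht
    have h1 := (((ContinuousLinearMap.apply 𝕜 A a).restrictScalars ℝ :
      (A →L[𝕜] A) →L[ℝ] A)).hasFDerivAt.comp_hasDerivAt t (hder t ht)
    exact h1
  -- multiplicativity
  have hmult : ∀ (t : Ioo (-η) η) (a b : A),
      M (α t a) (α t b) - α t (M a b) = 0 := by
    refine halving' (f := fun (t : Ioo (-η) η) a b => M (α t a) (α t b) - α t (M a b))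
      (‖M‖ * R * R + R * ‖M‖) ?_ ?_
    · rintro ⟨t, ht⟩ a b
      obtain ⟨-, -, h3⟩ := hnear t ht
      have e1 : ‖M (α t a) (α t b)‖ ≤ ‖M‖ * (R * ‖a‖) * (R * ‖b‖) := by
        refine (M.le_opNorm₂ _ _).trans ?_
        have i1 : ‖α t a‖ ≤ R * ‖a‖ := ((α t).le_opNorm a).trans (by gcongr)
        have i2 : ‖α t b‖ ≤ R * ‖b‖ := ((α t).le_opNorm b).trans (by gcongr)
        gcongr
      have e2 : ‖α t (M a b)‖ ≤ R * (‖M‖ * ‖a‖ * ‖b‖) := by
        refine ((α t).le_opNorm _).trans ?_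
        have i1 := M.le_opNorm₂ a b
        gcongr
      calc ‖M (α t a) (α t b) - α t (M a b)‖ ≤ ‖M (α t a) (α t b)‖ + ‖α t (M a b)‖ :=
            norm_sub_le _ _
        _ ≤ ‖M‖ * (R * ‖a‖) * (R * ‖b‖) + R * (‖M‖ * ‖a‖ * ‖b‖) := by gcongr
        _ = (‖M‖ * R * R + R * ‖M‖) * ‖a‖ * ‖b‖ := by ring
    · intro K hK hKb
      rintro ⟨t, ht⟩ a b
      let e : ℝ → A := fun t => M (α t a) (α t b) - α t (M a b)
      let e' : ℝ → A := fun t => (M (α t (G (α t) a)) (α t b) - α t (M (G (α t) a) b)) +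
        (M (α t a) (α t (G (α t) b)) - α t (M a (G (α t) b)))
      have he : ∀ s ∈ Ioo (-η) η, HasDerivAt e (e' s) s := by
        intro s hs
        have h1 := hev a s hs
        have h2 := hev b s hs
        have h3 := hev (M a b) s hs
        have h4 := ((M.isBoundedBilinearMap.hasFDerivAt (α s a, α s b)).restrictScalars
          ℝ).comp_hasDerivAt s (h1.prodMk h2)
        have h5 := h4.sub h3
        refine h5.congr_deriv ?_
        have h6 : α s (G (α s) (M a b)) = α s (M (G (α s) a) b) + α s (M a (G (α s) b)) := by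
          rw [← map_add, ← hσ (Ring.inverse (α s) (X (α s x))) a b]
        show M (α s a) (α s (G (α s) b)) + M (α s (G (α s) a)) (α s b) - α s (G (α s) (M a b)) = _
        rw [h6]
        simp only [e']
        abel
      have hb : ∀ s ∈ Ioo (-η) η, ‖e' s‖ ≤ 2 * C * K * ‖a‖ * ‖b‖ := by
        intro s hs
        obtain ⟨-, h2, -⟩ := hnear s hs
        have i1 : ‖G (α s) a‖ ≤ C * ‖a‖ := ((G (α s)).le_opNorm a).trans (by gcongr)
        have i2 : ‖G (α s) b‖ ≤ C * ‖b‖ := ((G (α s)).le_opNorm b).trans (by gcongr)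
        have j1 : ‖M (α s (G (α s) a)) (α s b) - α s (M (G (α s) a) b)‖ ≤ K * (C * ‖a‖) * ‖b‖ :=
          (hKb ⟨s, hs⟩ _ _).trans (by gcongr)
        have j2 : ‖M (α s a) (α s (G (α s) b)) - α s (M a (G (α s) b))‖ ≤ K * ‖a‖ * (C * ‖b‖) :=
          (hKb ⟨s, hs⟩ _ _).trans (by gcongr)
        calc ‖e' s‖ ≤ K * (C * ‖a‖) * ‖b‖ + K * ‖a‖ * (C * ‖b‖) :=
              (norm_add_le _ _).trans (add_le_add j1 j2)
          _ = 2 * C * K * ‖a‖ * ‖b‖ := by ring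
      have h0mem : (0 : ℝ) ∈ Ioo (-η) η := ⟨by linarith, hη0⟩
      have hmv := Convex.norm_image_sub_le_of_norm_hasDerivWithin_le (f := e) (f' := e')
        (fun s hs => (he s hs).hasDerivWithinAt) hb (convex_Ioo (-η) η) h0mem ht
      have he0 : e 0 = 0 := by
        simp only [e, hα0]
        show M a b - M a b = 0
        rw [sub_self]
      rw [he0, sub_zero, sub_zero] at hmv
      refine hmv.trans ?_
      have ht' : ‖t‖ ≤ η := (abs_lt.2 ht).le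
      calc 2 * C * K * ‖a‖ * ‖b‖ * ‖t‖ ≤ 2 * C * K * ‖a‖ * ‖b‖ * η := by gcongr
        _ = (η * (4 * C)) * (K / 2 * ‖a‖ * ‖b‖) := by ring
        _ ≤ 1 * (K / 2 * ‖a‖ * ‖b‖) := by gcongr
        _ = K / 2 * ‖a‖ * ‖b‖ := by ring
  have hA : ∀ t ∈ Ioo (-η) η, IsA M (α t) := fun t ht =>
    ⟨(hnear t ht).1, fun a b => (sub_eq_zero.1 (hmult ⟨t, ht⟩ a b)).symm⟩
  -- the orbit equation
  have horb : ∀ t ∈ Ioo (-η) η, HasDerivAt (fun t => α t x) (X (α t x)) t := by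
    intro t ht
    refine (hev x t ht).congr_deriv ?_
    obtain ⟨D, hD, hDx⟩ := mem_W.1 (hX (α t x))
    have h1 : Ring.inverse (α t) (X (α t x)) ∈ W M x := by
      refine ⟨_, conj_der (hA t ht) hD, ?_⟩
      show Ring.inverse (α t) (D (α t x)) = _
      rw [hDx]
    show α t (σ (Ring.inverse (α t) (X (α t x))) x) = _
    rw [hσx _ h1, inv_apply (hnear t ht).1]
  refine ⟨η, hη0, fun t ht => ?_⟩
  have ht' : t ∈ Ioo (-η) η := abs_lt.1 ht
  refine ⟨α t, hA t ht', ?_⟩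
  have huniq := ODE_solution_unique_of_mem_Ioo (v := fun _ y => X y) (s := fun _ => univ)
    (K := ‖X‖₊) (t₀ := 0) (a := -η) (b := η) (f := fun t : ℝ => exp ((t : 𝕜) • X) x)
    (g := fun t => α t x)
    (fun t _ => X.lipschitz.lipschitzOnWith) ⟨by linarith, hη0⟩
    (fun t _ => ⟨real_flow X x t, mem_univ _⟩) (fun t ht => ⟨horb t ht, mem_univ _⟩) (by
      simp [hα0])
  exact huniq ht'

theorem forward [NormedSpace ℝ A] [IsScalarTower ℝ 𝕜 A] [FiniteDimensional 𝕜 A]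
    (M : A →L[𝕜] A →L[𝕜] A) (X : A →L[𝕜] A) (hX : ∀ y, X y ∈ W M y) (t : ℝ) (x : A) :
    ∃ g, IsA M g ∧ exp ((t : 𝕜) • X) x = g x := by
  have : CompleteSpace A := FiniteDimensional.complete 𝕜 A
  let S : Set ℝ := {t | ∃ g, IsA M g ∧ exp ((t : 𝕜) • X) x = g x}
  have hopen : IsOpen S := by
    rw [Metric.isOpen_iff]
    rintro t₀ ⟨g₀, hg₀, h₀⟩
    obtain ⟨ε, hε, h⟩ := ode_step M X hX (exp ((t₀ : 𝕜) • X) x)
    refine ⟨ε, hε, fun t ht => ?_⟩
    obtain ⟨g, hg, h1⟩ := h (t - t₀) (by rwa [Metric.mem_ball, Real.dist_eq] at ht)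
    refine ⟨g * g₀, hg.mul hg₀, ?_⟩
    rw [exp_flow_add, sub_add_cancel, h₀] at h1
    exact h1
  have hclosed : IsClosed S := by
    refine isClosed_of_closure_subset fun t₀ ht₀ => ?_
    obtain ⟨ε, hε, h⟩ := ode_step M X hX (exp ((t₀ : 𝕜) • X) x)
    obtain ⟨t₁, ⟨g₁, hg₁, h₁⟩, hd⟩ := Metric.mem_closure_iff.1 ht₀ ε hε
    obtain ⟨g, hg, h2⟩ := h (t₁ - t₀) (by rwa [dist_comm, Real.dist_eq] at hd)
    rw [exp_flow_add, sub_add_cancel, h₁] at h2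
    refine ⟨Ring.inverse g * g₁, hg.inv.mul hg₁, ?_⟩
    show _ = Ring.inverse g (g₁ x)
    rw [h2, apply_inv hg.1]
  have hne : S.Nonempty := ⟨0, 1, IsA.one M, by simp⟩
  have huniv : S = univ := IsClopen.eq_univ ⟨hclosed, hopen⟩ hne
  have : t ∈ S := huniv ▸ mem_univ t
  exact this

end Pool.Agent.Q169.LAD
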